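import Pool.Agent.Helper96.KS.Parts

/-!
# KS, part FM (MP_17e8f0_pr): the final matching of two sets of leaves
-/

set_option autoImplicit false

open Finset

namespace KS.FM_helper41

open scoped Classical

open Inst

variable {K : ℕ} {I : Inst K}

/-- the gain -/
noncomputable def gn (a b : I.H → ℝ) (th : ℝ) (A B : Finset I.H) (η : I.H → I.H) : ℝ :=
  ∑ u ∈ A, ∑ v ∈ B, if a u * b v ≤ th ∧ η u = v then a u * b v else 0

/-- the mean gain -/
noncomputable def MM (a b : I.H → ℝ) (th : ℝ) (A B : Finset I.H) : ℝ :=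
  ∑ u ∈ A, ∑ v ∈ B, if a u * b v ≤ th then a u * b v * I.q (I.c u) v else 0

theorem gn_ge (a b : I.H → ℝ) (th : ℝ) (A B : Finset I.H) (η : I.H → I.H) (u v : I.H)
    (ha : ∀ x, 0 ≤ a x) (hb : ∀ x, 0 ≤ b x) (hu : u ∈ A) (hη : η u = v) :
    (if v ∈ B then (if a u * b v ≤ th then a u * b v else 0) else 0) +
      gn a b th ((A.erase u).erase v) (B.erase v) η ≤ gn a b th A B η := by
  have hnn : ∀ x y, 0 ≤ if a x * b y ≤ th ∧ η x = y then a x * b y else 0 := by
    intro x y
    split_ifs
    · exact mul_nonneg (ha _) (hb _)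
    · exact le_rfl
  unfold gn
  rw [← Finset.add_sum_erase A _ hu]
  apply add_le_add
  · split_ifs with h1 h2
    · refine le_trans ?_ (Finset.single_le_sum (fun y _ => hnn u y) h1)
      rw [if_pos ⟨h2, hη⟩]
    · exact Finset.sum_nonneg fun y _ => hnn u y
    · exact Finset.sum_nonneg fun y _ => hnn u y
  · refine le_trans (Finset.sum_le_sum fun x _ =>
      Finset.sum_le_sum_of_subset_of_nonneg (Finset.erase_subset v B) fun y _ _ => hnn x y) ?_
    exact Finset.sum_le_sum_of_subset_of_nonneg (Finset.erase_subset v _)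
      fun x _ _ => Finset.sum_nonneg fun y _ => hnn x y

theorem MM_le (a b : I.H → ℝ) (th : ℝ) (A B : Finset I.H) (u v : I.H)
    (ha : ∀ x, 0 ≤ a x) (hb : ∀ x, 0 ≤ b x) (hu : u ∈ A) (κ : ℝ) (hκ : 0 ≤ κ)
    (hq0 : ∀ k x, 0 ≤ I.q k x) (hq1 : ∀ k x, I.q k x ≤ κ)
    (hA : ∑ x ∈ A, a x ≤ 1) (hB : ∑ x ∈ B, b x ≤ 1) :
    MM a b th A B ≤ MM a b th ((A.erase u).erase v) (B.erase v) +
      (∑ y ∈ B, if a u * b y ≤ th then a u * b y * I.q (I.c u) y else 0) +
      κ * (if v ∈ A then a v else 0) + κ * (if v ∈ B then b v else 0) := by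
  have hnn : ∀ x y, 0 ≤ if a x * b y ≤ th then a x * b y * I.q (I.c x) y else 0 := by
    intro x y
    split_ifs
    · exact mul_nonneg (mul_nonneg (ha _) (hb _)) (hq0 _ _)
    · exact le_rfl
  have hle : ∀ x y, (if a x * b y ≤ th then a x * b y * I.q (I.c x) y else 0) ≤
      a x * b y * κ := by
    intro x y
    have h0 : 0 ≤ a x * b y := mul_nonneg (ha _) (hb _)
    split_ifs
    · exact mul_le_mul_of_nonneg_left (hq1 _ _) h0
    · exact mul_nonneg h0 hκ
  have h1 : MM a b th A B = (∑ y ∈ B, if a u * b y ≤ th then a u * b y * I.q (I.c u) y else 0) +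
      MM a b th (A.erase u) B := by
    unfold MM
    rw [← Finset.add_sum_erase A _ hu]
  have h2 : MM a b th (A.erase u) B ≤ MM a b th ((A.erase u).erase v) B +
      κ * (if v ∈ A then a v else 0) := by
    unfold MM
    by_cases hv : v ∈ A.erase u
    · have hvA : v ∈ A := Finset.mem_of_mem_erase hv
      rw [← Finset.add_sum_erase (A.erase u) _ hv, if_pos hvA]
      have h3 : ∑ y ∈ B, (if a v * b y ≤ th then a v * b y * I.q (I.c v) y else 0) ≤ κ * a v := by
        calc ∑ y ∈ B, (if a v * b y ≤ th then a v * b y * I.q (I.c v) y else 0)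
            ≤ ∑ y ∈ B, a v * b y * κ := Finset.sum_le_sum fun y _ => hle v y
          _ = κ * a v * ∑ y ∈ B, b y := by
              rw [Finset.mul_sum]
              exact Finset.sum_congr rfl fun y _ => by ring
          _ ≤ κ * a v * 1 := mul_le_mul_of_nonneg_left hB (mul_nonneg hκ (ha v))
          _ = κ * a v := mul_one _
      linarith
    · rw [Finset.erase_eq_of_notMem hv]
      have : 0 ≤ κ * (if v ∈ A then a v else 0) := by
        apply mul_nonneg hκ
        split_ifs
        · exact ha v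
        · exact le_rfl
      linarith
  have h3 : MM a b th ((A.erase u).erase v) B ≤ MM a b th ((A.erase u).erase v) (B.erase v) +
      κ * (if v ∈ B then b v else 0) := by
    by_cases hv : v ∈ B
    · rw [if_pos hv]
      unfold MM
      have h4 : ∀ x ∈ (A.erase u).erase v,
          ∑ y ∈ B, (if a x * b y ≤ th then a x * b y * I.q (I.c x) y else 0) =
          (if a x * b v ≤ th then a x * b v * I.q (I.c x) v else 0) +
          ∑ y ∈ B.erase v, (if a x * b y ≤ th then a x * b y * I.q (I.c x) y else 0) :=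
        fun x _ => (Finset.add_sum_erase B _ hv).symm
      rw [Finset.sum_congr rfl h4, Finset.sum_add_distrib]
      have h5 : ∑ x ∈ (A.erase u).erase v,
          (if a x * b v ≤ th then a x * b v * I.q (I.c x) v else 0) ≤ κ * b v := by
        calc ∑ x ∈ (A.erase u).erase v, (if a x * b v ≤ th then a x * b v * I.q (I.c x) v else 0)
            ≤ ∑ x ∈ A, (if a x * b v ≤ th then a x * b v * I.q (I.c x) v else 0) :=
              Finset.sum_le_sum_of_subset_of_nonneg
                ((Finset.erase_subset _ _).trans (Finset.erase_subset _ _)) fun x _ _ => hnn x v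
          _ ≤ ∑ x ∈ A, a x * b v * κ := Finset.sum_le_sum fun x _ => hle x v
          _ = κ * b v * ∑ x ∈ A, a x := by
              rw [Finset.mul_sum]
              exact Finset.sum_congr rfl fun y _ => by ring
          _ ≤ κ * b v * 1 := mul_le_mul_of_nonneg_left hA (mul_nonneg hκ (hb v))
          _ = κ * b v := mul_one _
      linarith
    · rw [if_neg hv, Finset.erase_eq_of_notMem hv, mul_zero, add_zero]
  linarith

theorem exp_bound (z y : ℝ) (hz : 0 ≤ z) (hy : 0 ≤ y) (hy1 : y ≤ 1 / 2) :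
    Real.exp (-z + y) ≤ 1 - z + z ^ 2 + 2 * y := by
  have h1 : Real.exp (-z) ≤ 1 - z + z ^ 2 := by
    have h2 : Real.exp (-z) * (1 + z) ≤ 1 := by
      have h3 : 1 + z ≤ Real.exp z := by linarith [Real.add_one_le_exp z]
      calc Real.exp (-z) * (1 + z) ≤ Real.exp (-z) * Real.exp z :=
            mul_le_mul_of_nonneg_left h3 (Real.exp_pos _).le
        _ = 1 := by rw [← Real.exp_add]; simp
    have h4 : 0 < 1 + z := by linarith
    have h5 : Real.exp (-z) ≤ 1 / (1 + z) := by
      rw [le_div_iff₀ h4]; exact h2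
    refine h5.trans ?_
    rw [div_le_iff₀ h4]
    have h6 : (1 - z + z ^ 2) * (1 + z) = 1 + z ^ 3 := by ring
    rw [h6]
    have : 0 ≤ z ^ 3 := by positivity
    linarith
  have h2 : Real.exp y ≤ 1 + 2 * y := by
    have h3 : Real.exp y * (1 - y) ≤ 1 := by
      have h4 : 1 - y ≤ Real.exp (-y) := by linarith [Real.add_one_le_exp (-y)]
      calc Real.exp y * (1 - y) ≤ Real.exp y * Real.exp (-y) :=
            mul_le_mul_of_nonneg_left h4 (Real.exp_pos _).le
        _ = 1 := by rw [← Real.exp_add]; simp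
    have h5 : 0 < 1 - y := by linarith
    have h6 : Real.exp y ≤ 1 / (1 - y) := by
      rw [le_div_iff₀ h5]; exact h3
    refine h6.trans ?_
    rw [div_le_iff₀ h5]
    nlinarith
  have h3 : Real.exp (-z) ≤ 1 := by
    rw [Real.exp_le_one_iff]; linarith
  rw [Real.exp_add]
  calc Real.exp (-z) * Real.exp y ≤ Real.exp (-z) * (1 + 2 * y) :=
        mul_le_mul_of_nonneg_left h2 (Real.exp_pos _).le
    _ = Real.exp (-z) + Real.exp (-z) * (2 * y) := by ring
    _ ≤ (1 - z + z ^ 2) + 1 * (2 * y) :=
        add_le_add h1 (mul_le_mul_of_nonneg_right h3 (by linarith))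
    _ = 1 - z + z ^ 2 + 2 * y := by ring

/-- one step: the sum over the partners of `u` -/
theorem step (W A B : Finset I.H) (a b cv : I.H → ℝ) (q : I.H → ℝ) (u : I.H)
    (th lam κ E Cl : ℝ) (hκ : 0 ≤ κ) (hE : 0 ≤ E) (hCl : 0 ≤ Cl) (hlam : 0 ≤ lam)
    (hth : 0 ≤ th) (ha : ∀ x, 0 ≤ a x) (hb : ∀ x, 0 ≤ b x) (hA : ∑ x ∈ A, a x ≤ 1)
    (hB : ∑ x ∈ B, b x ≤ 1) (hAB : Disjoint A B) (hBW : B ⊆ W)
    (hcv0 : ∀ v ∈ W, 0 ≤ cv v) (hcv1 : ∑ v ∈ W, cv v ≤ Cl)
    (hcv : ∀ v ∈ W, |cv v - q v * Cl| ≤ E * Cl) (hq1 : ∀ v, q v ≤ κ)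
    (hsA : ∀ x ∈ A, 4 * (lam * κ * a x) ≤ 1) (hsB : ∀ x ∈ B, 4 * (lam * κ * b x) ≤ 1)
    (hE3 : κ + E ≤ 3 * κ) :
    ∑ v ∈ W, cv v * Real.exp (-(lam * (if v ∈ B then (if a u * b v ≤ th then a u * b v else 0)
        else 0)) + lam * (κ * (if v ∈ A then a v else 0) + κ * (if v ∈ B then b v else 0))) ≤
      Cl * Real.exp (-lam * (∑ y ∈ B, if a u * b y ≤ th then a u * b y * q y else 0) +
        (3 * κ * lam ^ 2 * th + E * lam) * a u + 12 * κ ^ 2 * lam) := by
  set G : I.H → ℝ := fun v => if v ∈ B then (if a u * b v ≤ th then a u * b v else 0) else 0 with hG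
  set Y : I.H → ℝ := fun v => (if v ∈ A then a v else 0) + (if v ∈ B then b v else 0) with hY
  have hG0 : ∀ v, 0 ≤ G v := by
    intro v
    simp only [hG]
    split_ifs
    · exact mul_nonneg (ha _) (hb _)
    · exact le_rfl
    · exact le_rfl
  have hGle : ∀ v, G v ≤ a u * (if v ∈ B then b v else 0) := by
    intro v
    simp only [hG]
    split_ifs
    · exact le_rfl
    · exact mul_nonneg (ha _) (hb _)
    · simp
  have hG2 : ∀ v, G v ^ 2 ≤ th * (a u * (if v ∈ B then b v else 0)) := by
    intro v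
    have h1 : G v ≤ th := by
      simp only [hG]
      split_ifs with h1 h2
      · exact h2
      · exact hth
      · exact hth
    rw [sq]
    exact mul_le_mul h1 (hGle v) (hG0 v) hth
  have hY0 : ∀ v, 0 ≤ Y v := by
    intro v
    simp only [hY]
    apply add_nonneg
    · split_ifs
      · exact ha _
      · exact le_rfl
    · split_ifs
      · exact hb _
      · exact le_rfl
  have hYs : ∀ v, lam * κ * Y v ≤ 1 / 2 := by
    intro v
    simp only [hY]
    by_cases h1 : v ∈ A
    · have h2 : v ∉ B := fun h => Finset.disjoint_left.1 hAB h1 h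
      rw [if_pos h1, if_neg h2, add_zero]
      linarith [hsA v h1]
    · rw [if_neg h1, zero_add]
      split_ifs with h2
      · linarith [hsB v h2]
      · rw [mul_zero]; norm_num
  have hsumB : ∑ v ∈ W, (if v ∈ B then b v else 0) ≤ 1 := by
    rw [Finset.sum_ite_mem, Finset.inter_eq_right.2 hBW]
    exact hB
  have hsumA : ∑ v ∈ W, (if v ∈ A then a v else 0) ≤ 1 := by
    rw [Finset.sum_ite_mem]
    exact (Finset.sum_le_sum_of_subset_of_nonneg Finset.inter_subset_right
      fun x _ _ => ha x).trans hA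
  have hsB0 : 0 ≤ ∑ v ∈ W, (if v ∈ B then b v else 0) := Finset.sum_nonneg fun v _ => by
    split_ifs
    · exact hb _
    · exact le_rfl
  have hcv3 : ∀ v ∈ W, cv v ≤ 3 * κ * Cl := by
    intro v hv
    have h1 := (abs_le.1 (hcv v hv)).2
    have h2 : q v * Cl ≤ κ * Cl := mul_le_mul_of_nonneg_right (hq1 v) hCl
    have h3 : (κ + E) * Cl ≤ 3 * κ * Cl := mul_le_mul_of_nonneg_right hE3 hCl
    have h4 : (κ + E) * Cl = κ * Cl + E * Cl := by ring
    linarith
  -- the pointwise bound
  have hpt : ∀ v ∈ W, cv v * Real.exp (-(lam * G v) + lam * (κ * (if v ∈ A then a v else 0) +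
      κ * (if v ∈ B then b v else 0))) ≤
      cv v - lam * (cv v * G v) + lam ^ 2 * (cv v * G v ^ 2) + 2 * (lam * κ * (cv v * Y v)) := by
    intro v hv
    have h1 : lam * (κ * (if v ∈ A then a v else 0) + κ * (if v ∈ B then b v else 0)) =
        lam * κ * Y v := by
      simp only [hY]; ring
    rw [h1]
    have h2 := exp_bound (lam * G v) (lam * κ * Y v) (mul_nonneg hlam (hG0 v))
      (mul_nonneg (mul_nonneg hlam hκ) (hY0 v)) (hYs v)
    have h3 := mul_le_mul_of_nonneg_left h2 (hcv0 v hv)
    refine h3.trans (le_of_eq ?_)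
    ring
  refine (Finset.sum_le_sum hpt).trans ?_
  rw [Finset.sum_add_distrib, Finset.sum_add_distrib, Finset.sum_sub_distrib, ← Finset.mul_sum,
    ← Finset.mul_sum, ← Finset.mul_sum, ← Finset.mul_sum]
  -- first order term
  have hfirst : Cl * (∑ y ∈ B, if a u * b y ≤ th then a u * b y * q y else 0) - E * Cl * a u ≤
      ∑ v ∈ W, cv v * G v := by
    have h1 : ∑ v ∈ W, (q v * Cl - E * Cl) * G v ≤ ∑ v ∈ W, cv v * G v := by
      apply Finset.sum_le_sum
      intro v hv
      apply mul_le_mul_of_nonneg_right _ (hG0 v)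
      have := (abs_le.1 (hcv v hv)).1
      linarith
    have h2 : ∑ v ∈ W, (q v * Cl - E * Cl) * G v = Cl * ∑ v ∈ W, q v * G v -
        E * Cl * ∑ v ∈ W, G v := by
      rw [Finset.mul_sum, Finset.mul_sum, ← Finset.sum_sub_distrib]
      exact Finset.sum_congr rfl fun v _ => by ring
    have h3 : ∑ v ∈ W, q v * G v = ∑ y ∈ B, if a u * b y ≤ th then a u * b y * q y else 0 := by
      have h4 : ∀ v ∈ W, q v * G v = if v ∈ B then
          (if a u * b v ≤ th then a u * b v * q v else 0) else 0 := by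
        intro v _
        simp only [hG]
        split_ifs <;> ring
      rw [Finset.sum_congr rfl h4, Finset.sum_ite_mem, Finset.inter_eq_right.2 hBW]
    have h4 : ∑ v ∈ W, G v ≤ a u := by
      calc ∑ v ∈ W, G v ≤ ∑ v ∈ W, a u * (if v ∈ B then b v else 0) :=
            Finset.sum_le_sum fun v _ => hGle v
        _ = a u * ∑ v ∈ W, (if v ∈ B then b v else 0) := by rw [Finset.mul_sum]
        _ ≤ a u * 1 := mul_le_mul_of_nonneg_left hsumB (ha u)
        _ = a u := mul_one _
    rw [h2, h3] at h1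
    have h5 : E * Cl * ∑ v ∈ W, G v ≤ E * Cl * a u :=
      mul_le_mul_of_nonneg_left h4 (mul_nonneg hE hCl)
    linarith
  have hsecond : ∑ v ∈ W, cv v * G v ^ 2 ≤ 3 * κ * Cl * (th * a u) := by
    calc ∑ v ∈ W, cv v * G v ^ 2 ≤ ∑ v ∈ W, 3 * κ * Cl * (th * (a u * (if v ∈ B then b v else 0))) :=
          Finset.sum_le_sum fun v hv => mul_le_mul (hcv3 v hv) (hG2 v) (by positivity)
            (by positivity)
      _ = 3 * κ * Cl * (th * a u) * ∑ v ∈ W, (if v ∈ B then b v else 0) := by
          rw [Finset.mul_sum]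
          exact Finset.sum_congr rfl fun v _ => by ring
      _ ≤ 3 * κ * Cl * (th * a u) * 1 := by
          apply mul_le_mul_of_nonneg_left hsumB
          have := ha u
          positivity
      _ = _ := mul_one _
  have hthird : ∑ v ∈ W, cv v * Y v ≤ 3 * κ * Cl * 2 := by
    calc ∑ v ∈ W, cv v * Y v ≤ ∑ v ∈ W, 3 * κ * Cl * Y v :=
          Finset.sum_le_sum fun v hv => mul_le_mul_of_nonneg_right (hcv3 v hv) (hY0 v)
      _ = 3 * κ * Cl * ∑ v ∈ W, Y v := by rw [Finset.mul_sum]
      _ ≤ 3 * κ * Cl * 2 := by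
          apply mul_le_mul_of_nonneg_left _ (by positivity)
          simp only [hY]
          rw [Finset.sum_add_distrib]
          linarith
  set S := ∑ y ∈ B, (if a u * b y ≤ th then a u * b y * q y else 0) with hS
  have hfin : ∑ v ∈ W, cv v - lam * ∑ v ∈ W, cv v * G v + lam ^ 2 * ∑ v ∈ W, cv v * G v ^ 2 +
      2 * (lam * κ * ∑ v ∈ W, cv v * Y v) ≤
      Cl * (-lam * S + (3 * κ * lam ^ 2 * th + E * lam) * a u + 12 * κ ^ 2 * lam + 1) := by
    have h1 := mul_le_mul_of_nonneg_left hfirst hlam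
    have h2 := mul_le_mul_of_nonneg_left hsecond (sq_nonneg lam)
    have h3 := mul_le_mul_of_nonneg_left hthird (mul_nonneg hlam hκ)
    have h4 : Cl * (-lam * S + (3 * κ * lam ^ 2 * th + E * lam) * a u + 12 * κ ^ 2 * lam + 1) =
        Cl - lam * (Cl * S - E * Cl * a u) + lam ^ 2 * (3 * κ * Cl * (th * a u)) +
          2 * (lam * κ * (3 * κ * Cl * 2)) := by ring
    rw [h4]
    linarith
  refine le_trans ?_ (hfin.trans (mul_le_mul_of_nonneg_left (Real.add_one_le_exp _) hCl))
  apply le_of_eq
  ring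

/-- the exponential moment -/
theorem key (hST : KS.S_ST) (hPL : KS.S_PL) (hQ : KS.S_Q) (Δ : ℕ) (hI : I.Valid Δ)
    (a b : I.H → ℝ) (th lam m : ℝ) (ha : ∀ x, 0 ≤ a x) (hb : ∀ x, 0 ≤ b x) (hth : 0 ≤ th)
    (hlam : 0 ≤ lam) (hm : 4 * K * (m + 2) ≤ I.N) :
    ∀ (n : ℕ) (A B D : Finset I.H) (η0 : I.H → I.H), A.card ≤ n → η0 ∈ I.Om →
      (∀ x ∈ D, η0 x ∈ D) → Disjoint A D → Disjoint B D → Disjoint A B →
      ∑ x ∈ A, a x ≤ 1 → ∑ x ∈ B, b x ≤ 1 → (D.card : ℝ) + 2 * A.card ≤ m →
      (∀ x ∈ A, 4 * lam * K * a x ≤ I.N) → (∀ x ∈ B, 4 * lam * K * b x ≤ I.N) →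
      ∑ η ∈ I.Cls η0 D, Real.exp (-lam * gn a b th A B η) ≤
        (I.Cls η0 D).card * Real.exp (-lam * MM a b th A B +
          (3 * (K / I.N) * lam ^ 2 * th + 8 * (K : ℝ) ^ 2 * (m + 1) / (I.N : ℝ) ^ 2 * lam) *
            ∑ x ∈ A, a x + 12 * (K / I.N : ℝ) ^ 2 * lam * A.card) := by
  have hN : (0 : ℝ) < I.N := by exact_mod_cast hI.npos
  have hK : (0 : ℝ) < K := by
    have := hI.hK
    exact_mod_cast (by omega : 0 < K)
  obtain ⟨-, -, -, -, hq0, hq1, -, -⟩ := hQ K Δ I hI
  intro n
  induction n with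
  | zero =>
    intro A B D η0 hA _ _ _ _ _ _ _ _ _ _
    have hA0 : A = ∅ := Finset.card_eq_zero.1 (Nat.le_zero.1 hA)
    subst hA0
    simp [gn, MM]
  | succ n ih =>
    intro A B D η0 hAc hη0 hD hAD hBD hAB hA hB hDm hsA hsB
    rcases A.eq_empty_or_nonempty with rfl | ⟨u, hu⟩
    · simp [gn, MM]
    have huD : u ∉ D := fun h => Finset.disjoint_left.1 hAD hu h
    have hDm' : (D.card : ℝ) + 1 ≤ m + 1 := by
      have : (0 : ℝ) ≤ A.card := Nat.cast_nonneg _
      linarith
    set κ : ℝ := K / I.N with hκ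
    have hκ0 : 0 ≤ κ := by rw [hκ]; positivity
    set E : ℝ := 8 * (K : ℝ) ^ 2 * (D.card + 1) / (I.N : ℝ) ^ 2 with hE
    set E' : ℝ := 8 * (K : ℝ) ^ 2 * (m + 1) / (I.N : ℝ) ^ 2 with hE'
    have hE0 : 0 ≤ E := by rw [hE]; positivity
    have hEE : E ≤ E' := by
      rw [hE, hE']
      apply div_le_div_of_nonneg_right _ (by positivity)
      exact mul_le_mul_of_nonneg_left hDm' (by positivity)
    have hE3 : κ + E ≤ 3 * κ := by
      have h1 : E' ≤ 2 * κ := by
        rw [hE', hκ, div_le_iff₀ (by positivity)]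
        have h2 : 2 * ((K : ℝ) / I.N) * (I.N : ℝ) ^ 2 = 2 * K * I.N := by
          field_simp
        rw [h2]
        have h3 : 2 * (K : ℝ) * (4 * K * (m + 2)) ≤ 2 * K * I.N :=
          mul_le_mul_of_nonneg_left hm (by positivity)
        have h4 : 8 * (K : ℝ) ^ 2 * (m + 1) ≤ 2 * (K : ℝ) * (4 * K * (m + 2)) := by
          have : 2 * (K : ℝ) * (4 * K * (m + 2)) - 8 * (K : ℝ) ^ 2 * (m + 1) = 8 * (K : ℝ) ^ 2 := by
            ring
          have h5 : 0 ≤ 8 * (K : ℝ) ^ 2 := by positivity
          linarith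
        linarith
      linarith
    set Cl : ℝ := ((I.Cls η0 D).card : ℝ) with hCl
    have hCl0 : 0 ≤ Cl := Nat.cast_nonneg _
    set W : Finset I.H := univ.filter (fun v => v ∉ D ∧ v ≠ u) with hW
    set cv : I.H → ℝ := fun v => (((I.Cls η0 D).filter fun η => η u = v).card : ℝ) with hcv
    set κ1 : ℝ := 3 * κ * lam ^ 2 * th + E' * lam with hκ1
    have hκ10 : 0 ≤ κ1 := by
      have : 0 ≤ E' := hE0.trans hEE
      rw [hκ1]; positivity
    set δ : ℝ := 12 * κ ^ 2 * lam with hδ
    have hδ0 : 0 ≤ δ := by rw [hδ]; positivity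
    set Su : ℝ := ∑ y ∈ B, if a u * b y ≤ th then a u * b y * I.q (I.c u) y else 0 with hSu
    -- the constant part
    set R0 : ℝ := -lam * MM a b th A B + lam * Su + κ1 * ∑ x ∈ A.erase u, a x +
      δ * ((A.card : ℝ) - 1) with hR0
    have hst := hST K Δ I hI η0 hη0 D hD u huD (fun η => Real.exp (-lam * gn a b th A B η))
      (fun v => Real.exp R0 * Real.exp (-(lam * (if v ∈ B then (if a u * b v ≤ th then a u * b v
        else 0) else 0)) + lam * (κ * (if v ∈ A then a v else 0) +
          κ * (if v ∈ B then b v else 0)))) ?_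
    · refine hst.trans ?_
      have hstep := step W A B a b cv (fun v => I.q (I.c u) v) u th lam κ E Cl hκ0 hE0 hCl0
        hlam hth ha hb hA hB hAB ?_ (fun v _ => Nat.cast_nonneg _) ?_ ?_ (fun v => hq1 _ _)
        ?_ ?_ hE3
      · have h1 : ∑ v ∈ W, cv v * (Real.exp R0 * Real.exp (-(lam * (if v ∈ B then
            (if a u * b v ≤ th then a u * b v else 0) else 0)) + lam * (κ * (if v ∈ A then a v else 0)
              + κ * (if v ∈ B then b v else 0)))) = Real.exp R0 * ∑ v ∈ W, cv v *
            Real.exp (-(lam * (if v ∈ B then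
            (if a u * b v ≤ th then a u * b v else 0) else 0)) + lam * (κ * (if v ∈ A then a v else 0)
              + κ * (if v ∈ B then b v else 0))) := by
          rw [Finset.mul_sum]
          exact Finset.sum_congr rfl fun v _ => by ring
        refine (le_of_eq h1).trans ?_
        refine (mul_le_mul_of_nonneg_left hstep (Real.exp_pos _).le).trans ?_
        rw [mul_left_comm, ← Real.exp_add]
        apply mul_le_mul_of_nonneg_left _ hCl0
        apply Real.exp_le_exp.2
        rw [hR0]
        have h2 : ∑ x ∈ A, a x = a u + ∑ x ∈ A.erase u, a x :=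
          (Finset.add_sum_erase A _ hu).symm
        rw [h2]
        have h3 : (3 * κ * lam ^ 2 * th + E * lam) * a u ≤ κ1 * a u := by
          apply mul_le_mul_of_nonneg_right _ (ha u)
          rw [hκ1]
          have : E * lam ≤ E' * lam := mul_le_mul_of_nonneg_right hEE hlam
          linarith
        have h4 : -lam * Su + lam * Su = 0 := by ring
        have h5 : κ1 * (a u + ∑ x ∈ A.erase u, a x) = κ1 * a u + κ1 * ∑ x ∈ A.erase u, a x := by
          ring
        have h6 : δ * ((A.card : ℝ) - 1) = δ * A.card - δ := by ring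
        rw [h5, h6]
        linarith
      · intro v hv
        rw [hW, Finset.mem_filter]
        refine ⟨Finset.mem_univ _, fun h => Finset.disjoint_left.1 hBD hv h, ?_⟩
        rintro rfl
        exact Finset.disjoint_left.1 hAB hu hv
      · -- sum of the fibres
        rw [hCl, hcv]
        have h1 : ∑ v ∈ W, ((I.Cls η0 D).filter fun η => η u = v).card ≤ (I.Cls η0 D).card := by
          rw [← Finset.card_biUnion]
          · apply Finset.card_le_card
            intro η hη
            rw [Finset.mem_biUnion] at hη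
            obtain ⟨v, -, hv⟩ := hη
            exact (Finset.mem_filter.1 hv).1
          · intro v _ v' _ hvv
            rw [Function.onFun, Finset.disjoint_left]
            intro η h1 h2
            exact hvv ((Finset.mem_filter.1 h1).2.symm.trans (Finset.mem_filter.1 h2).2)
        have h2 : ((∑ v ∈ W, ((I.Cls η0 D).filter fun η => η u = v).card : ℕ) : ℝ) ≤
            ((I.Cls η0 D).card : ℝ) := Nat.cast_le.2 h1
        rw [Nat.cast_sum] at h2
        exact h2
      · intro v hv
        rw [hW, Finset.mem_filter] at hv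
        have hcond : 4 * K * (D.card + 2) ≤ I.N := by
          have h1 : (4 : ℝ) * K * ((D.card : ℝ) + 2) ≤ I.N := by
            have h2 : (0 : ℝ) ≤ A.card := Nat.cast_nonneg _
            have h3 : (4 : ℝ) * K * ((D.card : ℝ) + 2) ≤ 4 * K * (m + 2) :=
              mul_le_mul_of_nonneg_left (by linarith) (by positivity)
            linarith
          exact_mod_cast h1
        exact hPL K Δ I hI η0 hη0 D hD hcond u huD v hv.2.1 hv.2.2
      · intro x hx
        have := hsA x hx
        rw [hκ]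
        have h1 : 4 * (lam * (K / I.N) * a x) = 4 * lam * K * a x / I.N := by ring
        rw [h1, div_le_one hN]
        exact this
      · intro x hx
        have := hsB x hx
        rw [hκ]
        have h1 : 4 * (lam * (K / I.N) * b x) = 4 * lam * K * b x / I.N := by ring
        rw [h1, div_le_one hN]
        exact this
    · -- the induction hypothesis
      intro v hvD hvu η1 hη1 hη1u
      have hη1' := (Finset.mem_filter.1 hη1)
      have hη1Om : η1 ∈ I.Om := hη1'.1
      have hinv : ∀ x, η1 (η1 x) = x := (Finset.mem_filter.1 hη1Om).2.1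
      set D' : Finset I.H := insert u (insert v D) with hD'
      set A' := (A.erase u).erase v with hA'
      set B' := B.erase v with hB'
      have hA'A : A' ⊆ A.erase u := Finset.erase_subset _ _
      have hcardA : (A.erase u).card = A.card - 1 := Finset.card_erase_of_mem hu
      have hApos : 1 ≤ A.card := Finset.card_pos.2 ⟨u, hu⟩
      have hcA' : A'.card ≤ A.card - 1 := hcardA ▸ Finset.card_le_card hA'A
      have hA's : ∑ x ∈ A', a x ≤ ∑ x ∈ A.erase u, a x :=
        Finset.sum_le_sum_of_subset_of_nonneg hA'A fun x _ _ => ha x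
      have hAe : ∑ x ∈ A.erase u, a x ≤ ∑ x ∈ A, a x :=
        Finset.sum_le_sum_of_subset_of_nonneg (Finset.erase_subset _ _) fun x _ _ => ha x
      have hcD' : D'.card ≤ D.card + 2 := by
        rw [hD']
        have h1 := Finset.card_insert_le u (insert v D)
        have h2 := Finset.card_insert_le v D
        omega
      have hIH := ih A' B' D' η1 (by omega) hη1Om ?_ ?_ ?_ ?_ (hA's.trans (hAe.trans hA)) ?_ ?_ ?_ ?_
      · -- conclusion
        have hle : ∀ η ∈ I.Cls η1 D', Real.exp (-lam * gn a b th A B η) ≤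
            Real.exp (-lam * (if v ∈ B then (if a u * b v ≤ th then a u * b v else 0) else 0)) *
              Real.exp (-lam * gn a b th A' B' η) := by
          intro η hη
          have hηu : η u = v := by
            have := (Finset.mem_filter.1 hη).2 u (by rw [hD']; simp)
            rw [this, hη1u]
          rw [← Real.exp_add]
          apply Real.exp_le_exp.2
          have h1 := gn_ge a b th A B η u v ha hb hu hηu
          have h2 := mul_le_mul_of_nonneg_left h1 hlam
          rw [mul_add] at h2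
          linarith
        refine (Finset.sum_le_sum hle).trans ?_
        rw [← Finset.mul_sum]
        refine (mul_le_mul_of_nonneg_left hIH (Real.exp_pos _).le).trans ?_
        rw [mul_left_comm, ← Real.exp_add, ← Real.exp_add]
        apply mul_le_mul_of_nonneg_left _ (Nat.cast_nonneg _)
        apply Real.exp_le_exp.2
        have h1 := MM_le a b th A B u v ha hb hu κ hκ0 hq0 hq1 hA hB
        have h2 := mul_le_mul_of_nonneg_left h1 hlam
        have h3 : κ1 * ∑ x ∈ A', a x ≤ κ1 * ∑ x ∈ A.erase u, a x :=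
          mul_le_mul_of_nonneg_left hA's hκ10
        have h4 : δ * (A'.card : ℝ) ≤ δ * ((A.card : ℝ) - 1) := by
          apply mul_le_mul_of_nonneg_left _ hδ0
          have : ((A'.card : ℕ) : ℝ) ≤ ((A.card - 1 : ℕ) : ℝ) := by exact_mod_cast hcA'
          rwa [Nat.cast_sub hApos, Nat.cast_one] at this
        have h5 : lam * (MM a b th A' B' + Su + κ * (if v ∈ A then a v else 0) +
            κ * (if v ∈ B then b v else 0)) = lam * MM a b th A' B' + lam * Su +
            lam * (κ * (if v ∈ A then a v else 0) + κ * (if v ∈ B then b v else 0)) := by ring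
        rw [h5] at h2
        rw [hR0]
        linarith
      · intro x hx
        rw [hD', Finset.mem_insert, Finset.mem_insert] at hx
        rcases hx with rfl | rfl | hx
        · rw [hη1u, hD']; simp
        · have : η1 x = u := by rw [← hη1u, hinv]
          rw [this, hD']; simp
        · rw [hη1'.2 x hx, hD']
          exact Finset.mem_insert_of_mem (Finset.mem_insert_of_mem (hD x hx))
      · rw [Finset.disjoint_left]
        intro x hx hxD
        rw [hA', Finset.mem_erase, Finset.mem_erase] at hx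
        rw [hD', Finset.mem_insert, Finset.mem_insert] at hxD
        rcases hxD with h | h | h
        · exact hx.2.1 h
        · exact hx.1 h
        · exact Finset.disjoint_left.1 hAD hx.2.2 h
      · rw [Finset.disjoint_left]
        intro x hx hxD
        rw [hB', Finset.mem_erase] at hx
        rw [hD', Finset.mem_insert, Finset.mem_insert] at hxD
        rcases hxD with h | h | h
        · rw [h] at hx
          exact Finset.disjoint_left.1 hAB hu hx.2
        · exact hx.1 h
        · exact Finset.disjoint_left.1 hBD hx.2 h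
      · rw [Finset.disjoint_left]
        intro x hx hxB
        exact Finset.disjoint_left.1 hAB (Finset.mem_of_mem_erase (hA'A hx))
          (Finset.mem_of_mem_erase hxB)
      · exact (Finset.sum_le_sum_of_subset_of_nonneg (Finset.erase_subset _ _)
          fun x _ _ => hb x).trans hB
      · have h1 : (D'.card : ℝ) ≤ D.card + 2 := by exact_mod_cast hcD'
        have h2 : ((A'.card : ℕ) : ℝ) ≤ ((A.card - 1 : ℕ) : ℝ) := by exact_mod_cast hcA'
        rw [Nat.cast_sub hApos, Nat.cast_one] at h2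
        linarith
      · intro x hx
        exact hsA x (Finset.mem_of_mem_erase (hA'A hx))
      · intro x hx
        exact hsB x (Finset.mem_of_mem_erase hx)

theorem main (hST : KS.S_ST) (hPL : KS.S_PL) (hQ : KS.S_Q) : KS.S_FM := by
  intro K Δ I hI η0 D A B a b th lam m ep hη0 hD hAD hBD hAB ha hb hA hB hth hlam hDm hm hsA hsB
  have hN : (0 : ℝ) < I.N := by exact_mod_cast hI.npos
  have hK : (0 : ℝ) < K := by
    have := hI.hK
    exact_mod_cast (by omega : 0 < K)
  have hm0 : 0 ≤ m := by
    have h1 : (0 : ℝ) ≤ A.card := Nat.cast_nonneg _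
    have h2 : (0 : ℝ) ≤ D.card := Nat.cast_nonneg _
    linarith
  have hkey := key hST hPL hQ Δ hI a b th lam m ha hb hth hlam hm A.card A B D η0 le_rfl hη0 hD
    hAD hBD hAB hA hB hDm hsA hsB
  set S := (I.Cls η0 D).filter fun η =>
      ∑ u ∈ A, ∑ v ∈ B, (if a u * b v ≤ th ∧ η u = v then a u * b v else 0)
        < ∑ u ∈ A, ∑ v ∈ B, (if a u * b v ≤ th then a u * b v * I.q (I.c u) v else 0)
          - ep with hS
  have h1 : (S.card : ℝ) * Real.exp (-lam * (MM a b th A B - ep)) ≤
      ∑ η ∈ I.Cls η0 D, Real.exp (-lam * gn a b th A B η) := by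
    calc (S.card : ℝ) * Real.exp (-lam * (MM a b th A B - ep)) =
        ∑ η ∈ S, Real.exp (-lam * (MM a b th A B - ep)) := by
          rw [Finset.sum_const, nsmul_eq_mul]
      _ ≤ ∑ η ∈ S, Real.exp (-lam * gn a b th A B η) := by
          apply Finset.sum_le_sum
          intro η hη
          apply Real.exp_le_exp.2
          have h2 : gn a b th A B η < MM a b th A B - ep := (Finset.mem_filter.1 hη).2
          have h3 := mul_le_mul_of_nonneg_left h2.le hlam
          linarith
      _ ≤ _ := Finset.sum_le_sum_of_subset_of_nonneg (Finset.filter_subset _ _)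
          fun _ _ _ => (Real.exp_pos _).le
  have h2 := h1.trans hkey
  have h3 : (S.card : ℝ) ≤ (I.Cls η0 D).card * (Real.exp (-lam * MM a b th A B +
      (3 * (K / I.N) * lam ^ 2 * th + 8 * (K : ℝ) ^ 2 * (m + 1) / (I.N : ℝ) ^ 2 * lam) *
        ∑ x ∈ A, a x + 12 * (K / I.N : ℝ) ^ 2 * lam * A.card) *
          Real.exp (lam * (MM a b th A B - ep))) := by
    have h4 := mul_le_mul_of_nonneg_right h2 (Real.exp_pos (lam * (MM a b th A B - ep))).le
    rw [mul_assoc, ← Real.exp_add] at h4
    have h5 : -lam * (MM a b th A B - ep) + lam * (MM a b th A B - ep) = 0 := by ring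
    rw [h5, Real.exp_zero, mul_one, mul_assoc] at h4
    exact h4
  refine h3.trans ?_
  apply mul_le_mul_of_nonneg_left _ (Nat.cast_nonneg _)
  rw [← Real.exp_add]
  apply Real.exp_le_exp.2
  have hA0 : 0 ≤ ∑ x ∈ A, a x := Finset.sum_nonneg fun x _ => ha x
  have h6 : (3 * (K / I.N) * lam ^ 2 * th + 8 * (K : ℝ) ^ 2 * (m + 1) / (I.N : ℝ) ^ 2 * lam) *
      ∑ x ∈ A, a x ≤
      (3 * (K / I.N) * lam ^ 2 * th + 8 * (K : ℝ) ^ 2 * (m + 1) / (I.N : ℝ) ^ 2 * lam) * 1 :=
    mul_le_mul_of_nonneg_left hA (by positivity)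
  have h7 : 12 * ((K : ℝ) / I.N) ^ 2 * lam * A.card ≤
      12 * ((K : ℝ) / I.N) ^ 2 * lam * (m + 1) := by
    apply mul_le_mul_of_nonneg_left _ (by positivity)
    have h8 : (0 : ℝ) ≤ D.card := Nat.cast_nonneg _
    have h9 : (0 : ℝ) ≤ A.card := Nat.cast_nonneg _
    linarith
  have h8 : -lam * ep + 3 * K * lam ^ 2 * th / I.N +
      20 * (K : ℝ) ^ 2 * lam * (m + 1) / (I.N : ℝ) ^ 2 =
      -lam * ep + (3 * (K / I.N) * lam ^ 2 * th + 8 * (K : ℝ) ^ 2 * (m + 1) / (I.N : ℝ) ^ 2 * lam)
        * 1 + 12 * ((K : ℝ) / I.N) ^ 2 * lam * (m + 1) := by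
    field_simp
    ring
  rw [h8]
  have h9 : lam * (MM a b th A B - ep) = lam * MM a b th A B - lam * ep := by ring
  rw [h9]
  linarith

end KS.FM_helper41
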