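import Pool.Agent.Helper96.KS.Parts

/-!
# KS, part PL (MP_17e8f0_pr): the pairing law, numerical form
-/

set_option autoImplicit false

open Finset

namespace KS.PL_helper41

open scoped Classical

open Inst

theorem real_lemma (n m1 m2 e e' R r X Cl E : ℝ) (hn : 0 < n) (hm1 : 0 < m1) (hm2 : 0 < m2)
    (h1 : m1 ≤ n) (h2 : m2 ≤ n) (he : 0 ≤ e) (h2e : 2 * e ≤ n) (hm : n ^ 2 - n * e ≤ m1 * m2)
    (hR0 : 0 ≤ R) (hRn : R ≤ n) (hr1 : R - e' ≤ r) (hr2 : r ≤ R) (hX : 0 ≤ X) (hCl : 0 < Cl)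
    (hE1 : 2 * e ≤ E) (hE2 : e' ≤ E) (heq : X * m1 * m2 = r * Cl) :
    |X - R / n ^ 2 * Cl| ≤ E / n ^ 2 * Cl := by
  have hmm : 0 < m1 * m2 := mul_pos hm1 hm2
  have hr0 : 0 ≤ r := by
    by_contra hneg
    push Not at hneg
    have : r * Cl < 0 := mul_neg_of_neg_of_pos hneg hCl
    have h3 : 0 ≤ X * m1 * m2 := by positivity
    linarith
  have hn2 : 0 < n ^ 2 := by positivity
  have hle : m1 * m2 ≤ n ^ 2 := by nlinarith
  rw [abs_le]
  constructor
  · -- lower bound
    have h4 : r * Cl ≤ X * n ^ 2 := by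
      rw [← heq, mul_assoc]
      exact mul_le_mul_of_nonneg_left hle hX
    have h5 : (R - E) * Cl ≤ X * n ^ 2 := by
      have : (R - E) * Cl ≤ r * Cl := mul_le_mul_of_nonneg_right (by linarith) hCl.le
      linarith
    have h6 : (R - E) / n ^ 2 * Cl ≤ X := by
      rw [div_mul_eq_mul_div, div_le_iff₀ hn2]
      exact h5
    have h7 : (R - E) / n ^ 2 * Cl = R / n ^ 2 * Cl - E / n ^ 2 * Cl := by ring
    linarith
  · have h4 : R * n ^ 2 ≤ (R + E) * (m1 * m2) := by
      have h5 : (R + 2 * e) * (n ^ 2 - n * e) ≤ (R + E) * (m1 * m2) := by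
        apply mul_le_mul (by linarith) hm
        · nlinarith
        · nlinarith
      have h6 : R * n ^ 2 ≤ (R + 2 * e) * (n ^ 2 - n * e) := by
        have : (R + 2 * e) * (n ^ 2 - n * e) - R * n ^ 2 = n * e * (2 * n - R - 2 * e) := by ring
        have h7 : 0 ≤ n * e * (2 * n - R - 2 * e) :=
          mul_nonneg (mul_nonneg hn.le he) (by linarith)
        linarith
      linarith
    have h5 : X * (m1 * m2) ≤ R * Cl := by
      have : X * (m1 * m2) = r * Cl := by rw [← heq]; ring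
      rw [this]
      exact mul_le_mul_of_nonneg_right hr2 hCl.le
    have h6 : X * n ^ 2 ≤ (R + E) * Cl := by
      have h7 : X * (m1 * m2) * n ^ 2 ≤ (R + E) * Cl * (m1 * m2) := by
        calc X * (m1 * m2) * n ^ 2 ≤ R * Cl * n ^ 2 := mul_le_mul_of_nonneg_right h5 hn2.le
          _ = R * n ^ 2 * Cl := by ring
          _ ≤ (R + E) * (m1 * m2) * Cl := mul_le_mul_of_nonneg_right h4 hCl.le
          _ = (R + E) * Cl * (m1 * m2) := by ring
      have h8 : X * n ^ 2 * (m1 * m2) ≤ (R + E) * Cl * (m1 * m2) := by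
        have : X * n ^ 2 * (m1 * m2) = X * (m1 * m2) * n ^ 2 := by ring
        rw [this]; exact h7
      exact le_of_mul_le_mul_right h8 hmm
    have h7 : X ≤ (R + E) / n ^ 2 * Cl := by
      rw [div_mul_eq_mul_div, le_div_iff₀ hn2]
      exact h6
    have h8 : (R + E) / n ^ 2 * Cl = R / n ^ 2 * Cl + E / n ^ 2 * Cl := by ring
    linarith

theorem main (h : KS.S_PL1) : KS.S_PL := by
  intro K Δ I hI η0 hη0 D hD hsmall u hu v hv hvu
  obtain ⟨hpl1, hpl2⟩ := h K Δ I hI η0 hη0 D hD u hu v hv hvu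
  have hK : (2 : ℝ) ≤ K := by exact_mod_cast hI.hK
  have hK0 : (0 : ℝ) < K := by linarith
  set X : ℝ := (((I.Cls η0 D).filter fun η => η u = v).card : ℝ) with hX
  set Cl : ℝ := ((I.Cls η0 D).card : ℝ) with hCl
  have hX0 : 0 ≤ X := Nat.cast_nonneg _
  have hCl0 : 0 < Cl := by
    rw [hCl, Nat.cast_pos, Finset.card_pos]
    exact ⟨η0, by simp [Inst.Cls, hη0]⟩
  -- n
  set n : ℝ := ((I.Hk (I.c u)).card : ℝ) with hn
  have hN : (I.N : ℝ) = K * n := by
    have := hI.bal (I.c u)
    rw [hn, ← this]; push_cast; ring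
  have hlcard : ((I.Hk (I.c v)).card : ℝ) = n := by
    have h1 := hI.bal (I.c v)
    have h2 : (K : ℝ) * ((I.Hk (I.c v)).card : ℝ) = K * n := by rw [← hN, ← h1]; push_cast; ring
    exact mul_left_cancel₀ hK0.ne' h2
  set dd : ℝ := (D.card : ℝ) with hdd
  have hdd0 : 0 ≤ dd := Nat.cast_nonneg _
  have hbig : 4 * (dd + 2) ≤ n := by
    have h1 : ((4 * K * (D.card + 2) : ℕ) : ℝ) ≤ I.N := by exact_mod_cast hsmall
    push_cast at h1
    rw [hN] at h1
    have h2 : (K : ℝ) * (4 * (dd + 2)) ≤ K * n := by rw [hdd]; linarith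
    exact le_of_mul_le_mul_left h2 hK0
  have hn0 : 0 < n := by linarith
  have hfree : ∀ k : Fin K, (((I.Hk k) \ D).card : ℝ) + ((I.Hk k ∩ D).card : ℝ) =
      ((I.Hk k).card : ℝ) := by
    intro k
    exact_mod_cast Finset.card_sdiff_add_card_inter (I.Hk k) D
  have hint : ∀ k : Fin K, ((I.Hk k ∩ D).card : ℝ) ≤ dd := by
    intro k
    rw [hdd]
    exact_mod_cast Finset.card_le_card Finset.inter_subset_right
  have hint0 : ∀ k : Fin K, (0 : ℝ) ≤ ((I.Hk k ∩ D).card : ℝ) := fun k => Nat.cast_nonneg _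
  have hrhs : 8 * (K : ℝ) ^ 2 * (dd + 1) / (I.N : ℝ) ^ 2 * Cl = (8 * (dd + 1)) / n ^ 2 * Cl := by
    rw [hN]
    field_simp
  rw [hrhs]
  have hp : (K : ℝ) * I.p ≤ n := by
    have h1 : ((I.p * K ^ 2 : ℕ) : ℝ) ≤ I.N := by exact_mod_cast hI.al1
    push_cast at h1
    rw [hN] at h1
    have h2 : (K : ℝ) * (K * I.p) ≤ K * n := by
      have : (K : ℝ) * (K * I.p) = I.p * K ^ 2 := by ring
      linarith
    exact le_of_mul_le_mul_left h2 hK0
  have hp0 : (0 : ℝ) ≤ I.p := Nat.cast_nonneg _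
  by_cases hkl : I.c u = I.c v
  · -- same community
    have heq := hpl2 hkl
    have hq : I.q (I.c u) v = (n - (K - 1) * I.p) / n ^ 2 := by
      unfold Inst.q Inst.Msw Inst.al
      rw [if_pos hkl, hN]
      field_simp
      ring
    rw [hq]
    set dk : ℝ := ((I.Hk (I.c u) ∩ D).card : ℝ) with hdk
    have hnk := hfree (I.c u)
    have hnk' : (((I.Hk (I.c u)) \ D).card : ℝ) = n - dk := by rw [hn]; linarith
    rw [hnk'] at heq
    have hdk1 : dk ≤ dd := hint _
    have hdk0 : 0 ≤ dk := hint0 _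
    set Sg : ℝ := ∑ l ∈ univ.filter (fun l : Fin K => l ≠ I.c u),
      ((D.filter fun x => I.c x = I.c u ∧ I.c (η0 x) = l).card : ℝ) with hSg
    have hsum : ∑ l ∈ univ.filter (fun l : Fin K => l ≠ I.c u),
          ((I.p : ℝ) - (D.filter fun x => I.c x = I.c u ∧ I.c (η0 x) = l).card) =
        (K - 1) * I.p - Sg := by
      rw [Finset.sum_sub_distrib, Finset.sum_const, nsmul_eq_mul, hSg]
      have : (univ.filter (fun l : Fin K => l ≠ I.c u)).card = K - 1 := by
        rw [Finset.filter_ne' univ (I.c u), Finset.card_erase_of_mem (Finset.mem_univ _),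
          Finset.card_univ, Fintype.card_fin]
      rw [this, Nat.cast_sub (by have := hI.hK; omega), Nat.cast_one]
    rw [hsum] at heq
    have hSg0 : 0 ≤ Sg := Finset.sum_nonneg fun _ _ => Nat.cast_nonneg _
    have hSg1 : Sg ≤ dk := by
      have h1 : Sg ≤ ∑ l : Fin K, ((D.filter fun x => I.c x = I.c u ∧ I.c (η0 x) = l).card : ℝ) :=
        Finset.sum_le_sum_of_subset_of_nonneg (Finset.filter_subset _ _)
          fun _ _ _ => Nat.cast_nonneg _
      have h2 : ∑ l : Fin K, ((D.filter fun x => I.c x = I.c u ∧ I.c (η0 x) = l).card : ℝ) =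
          dk := by
        have h3 := Finset.card_eq_sum_card_fiberwise (f := fun x => I.c (η0 x))
          (s := I.Hk (I.c u) ∩ D) (t := univ) (fun _ _ => by simp)
        rw [hdk, h3]
        push_cast
        apply Finset.sum_congr rfl
        intro l _
        congr 2
        ext x
        simp only [Finset.mem_filter, Finset.mem_inter, Inst.Hk, Finset.mem_univ, true_and]
        tauto
      linarith
    have hblk : ((K : ℝ) - 1) * I.p ≤ n := by
      have : ((K : ℝ) - 1) * I.p = K * I.p - I.p := by ring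
      linarith
    refine real_lemma n (n - dk) (n - dk - 1) (2 * dd + 1) dd (n - (K - 1) * I.p)
      (n - dk - ((K - 1) * I.p - Sg)) X Cl (8 * (dd + 1)) hn0 (by linarith) (by linarith)
      (by linarith) (by linarith) (by linarith) (by linarith) ?_ (by linarith) ?_ (by linarith)
      (by linarith) hX0 hCl0 (by linarith) (by linarith) heq
    · have h3 : n * (2 * dk + 1) ≤ n * (2 * dd + 1) :=
        mul_le_mul_of_nonneg_left (by linarith) hn0.le
      have h4 : 0 ≤ dk * (dk + 1) := mul_nonneg hdk0 (by linarith)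
      have h5 : (n - dk) * (n - dk - 1) = n ^ 2 - n * (2 * dk + 1) + dk * (dk + 1) := by ring
      rw [h5]
      linarith
    · have : 0 ≤ ((K : ℝ) - 1) * I.p := mul_nonneg (by linarith) hp0
      linarith
  · have heq := hpl1 hkl
    have hq : I.q (I.c u) v = I.p / n ^ 2 := by
      unfold Inst.q Inst.Msw Inst.al
      rw [if_neg hkl, hN]
      field_simp
      ring
    rw [hq]
    set d1 : ℝ := ((I.Hk (I.c u) ∩ D).card : ℝ) with hd1
    set d2 : ℝ := ((I.Hk (I.c v) ∩ D).card : ℝ) with hd2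
    have h1 := hfree (I.c u)
    have h2 := hfree (I.c v)
    have h1' : (((I.Hk (I.c u)) \ D).card : ℝ) = n - d1 := by rw [hn]; linarith
    have h2' : (((I.Hk (I.c v)) \ D).card : ℝ) = n - d2 := by rw [← hlcard]; linarith
    rw [h1', h2'] at heq
    have hd1a : d1 ≤ dd := hint _
    have hd1b : 0 ≤ d1 := hint0 _
    have hd2a : d2 ≤ dd := hint _
    have hd2b : 0 ≤ d2 := hint0 _
    set Dk : ℝ := ((D.filter fun x => I.c x = I.c u ∧ I.c (η0 x) = I.c v).card : ℝ) with hDk
    have hDk0 : 0 ≤ Dk := Nat.cast_nonneg _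
    have hDk1 : Dk ≤ dd := by
      rw [hDk, hdd]
      exact_mod_cast Finset.card_le_card (Finset.filter_subset _ _)
    have hpn : (I.p : ℝ) ≤ n := by
      have h3 : 1 * (I.p : ℝ) ≤ K * I.p := mul_le_mul_of_nonneg_right (by linarith) hp0
      linarith
    refine real_lemma n (n - d1) (n - d2) (2 * dd) dd (I.p : ℝ)
      ((I.p : ℝ) - Dk) X Cl (8 * (dd + 1)) hn0 (by linarith) (by linarith)
      (by linarith) (by linarith) (by linarith) (by linarith) ?_ hp0 hpn (by linarith)
      (by linarith) hX0 hCl0 (by linarith) (by linarith) heq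
    have h3 : n * (d1 + d2) ≤ n * (2 * dd) := mul_le_mul_of_nonneg_left (by linarith) hn0.le
    have h4 : 0 ≤ d1 * d2 := mul_nonneg hd1b hd2b
    have h5 : (n - d1) * (n - d2) = n ^ 2 - n * (d1 + d2) + d1 * d2 := by ring
    rw [h5]
    linarith

end KS.PL_helper41
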